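import Pool.Agent.Helper33.DZ.Stmts

namespace Pool.Agent.Helper33.DZ

theorem st_SUMM : ST_SUMM := by
  intro r s hr hs
  have h1 : Summable (fun a : ℕ => (1 : ℝ) / ((a + 1 : ℕ) : ℝ) ^ (3 / 2 : ℝ)) := by
    have := (Real.summable_one_div_nat_rpow (p := (3 / 2 : ℝ))).2 (by norm_num)
    exact (summable_nat_add_iff 1).2 this
  have h2 := h1.mul_of_nonneg h1 (fun a => by positivity) (fun a => by positivity)
  refine Summable.of_nonneg_of_le (fun p => by positivity) (fun p => ?_) h2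
  obtain ⟨a, b⟩ := p
  simp only
  have ha : (0 : ℝ) < ((a + 1 : ℕ) : ℝ) := by positivity
  have hb : (0 : ℝ) < ((b + 1 : ℕ) : ℝ) := by positivity
  have hm1 : ((a + 1 : ℕ) : ℝ) ≤ ((a + b + 2 : ℕ) : ℝ) := by exact_mod_cast (by omega)
  have hm2 : ((b + 1 : ℕ) : ℝ) ≤ ((a + b + 2 : ℕ) : ℝ) := by exact_mod_cast (by omega)
  have hb1 : (1 : ℝ) ≤ ((b + 1 : ℕ) : ℝ) := by exact_mod_cast (by omega)
  have hm3 : (1 : ℝ) ≤ ((a + b + 2 : ℕ) : ℝ) := by exact_mod_cast (by omega)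
  rw [← one_div_mul_one_div_rev, mul_comm, one_div_mul_one_div_rev,
    one_div_mul_one_div_rev]
  refine one_div_le_one_div_of_le (by positivity) ?_
  set m : ℝ := ((a + b + 2 : ℕ) : ℝ)
  set x : ℝ := ((a + 1 : ℕ) : ℝ)
  set y : ℝ := ((b + 1 : ℕ) : ℝ)
  have e1 : x ^ (3 / 2 : ℝ) ≤ m ^ (3 / 2 : ℝ) := Real.rpow_le_rpow ha.le hm1 (by norm_num)
  have e2 : y ^ (1 / 2 : ℝ) ≤ m ^ (1 / 2 : ℝ) := Real.rpow_le_rpow hb.le hm2 (by norm_num)
  have e3 : m ^ (3 / 2 : ℝ) * m ^ (1 / 2 : ℝ) = m ^ 2 := by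
    rw [← Real.rpow_add (by linarith)]; norm_num
  have e4 : y ^ (3 / 2 : ℝ) = y ^ (1 / 2 : ℝ) * y := by
    rw [show (3 / 2 : ℝ) = 1 / 2 + 1 by norm_num, Real.rpow_add hb, Real.rpow_one]
  have e5 : m ^ 2 ≤ m ^ r := pow_le_pow_right₀ hm3 hr
  have e6 : y ≤ y ^ s := le_self_pow₀ hb1 (by omega)
  have e7 : x ^ (3 / 2 : ℝ) * y ^ (3 / 2 : ℝ) ≤ m ^ r * y ^ s := by
    rw [e4, ← mul_assoc]
    refine mul_le_mul (le_trans ?_ e5) e6 hb.le (by positivity)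
    rw [← e3]
    exact mul_le_mul e1 e2 (by positivity) (by positivity)
  nlinarith [e7]

end Pool.Agent.Helper33.DZ
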